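import Pool.Agent.K1H12.MS.Spec
import Pool.Agent.Y776.AxJ.Fun

/-!
# The modular Schanuel conjecture with derivatives on arbitrary analytic curves: a bounded number of exceptional algebraic
parameters in small discs, over arbitrary constants

Let `J(z) = (j(z), j'(z), j''(z))`, and let `c_1, …, c_r` be fixed numbers, for instance the values of `J` at fixed special
(quadratic) points. For points `z_1, …, z_N` which are not special and pairwise not `GL_2^+(ℚ)`-related the conjecture says that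
the field generated by the `4 N` numbers `z_k`, `J(z_k)` has transcendence degree at least `3 N`, and at least `3 N` over the
field generated by the values of `J` at special points, if the conjecture is true for these.

Consider `n` analytic curves in `ℍ^p × ℂ^s` over the same domain `Ω`: functions `τ_(k, 1), …, τ_(k, p)` with values in the
upper half-plane such that `j(τ_(k, i))` and `j(τ_(k, i'))` are algebraically independent over `ℂ` for `i ≠ i'`, and functions
`w_(k, 1), …, w_(k, s)` no nontrivial integral combination of which is constant. There are no other conditions; the functions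
need not have any arithmetic meaning. One can choose for each `k` fixed `3 p + s` of the `4 p + 2 s` functions `τ_(k, i)`,
`j(τ_(k, i))`, `j'(τ_(k, i))`, `j''(τ_(k, i))`, `w_(k, i)`, `exp(w_(k, i))` such that for almost all `n`-tuples of algebraic
parameters `t_k` of height at most `T` the `n (3 p + s)` chosen numbers at the `t_k` are algebraically independent over the
field generated by `c_1, …, c_r`, as far as relations of degree at most `d` and height at most `T ^ A` over number fields `F` of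
degree at most `m` show. The number of exceptions in a disc of radius `T ^ (-δ)` is bounded for `n = 1`, by a constant that does
not depend on the `c_i`, `F` and `T`; for all `n` there are at most `C ∑_k ∏_(i ≠ k) |X_i|` exceptions in a product of sets `X_k`
of diameter `T ^ (-δ)`. So there are always tuples without exceptions if `|X_k| > C`.

The starting file `MP_ede373_nt.ArbitraryCurves` has `C T^ε N^(n-1)` exceptions, `N` the number of all points (this follows from
the bound in small discs).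

Proof. The choice of the functions is the Ax-Schanuel theorem of the starting library (`Pool.Agent.Y776.AxJ.exists_loc`), the
bound is the determinant method `Pool.Agent.R349.Gen.shortG`; the numbers `c_i` are treated by the coefficients `∏ c_i ^ a_i`
(`Pool.Agent.K1H12.MS.Spec`).
-/

set_option autoImplicit false

open NumberField
open Pool.Agent

namespace Pool.Agent.Results.MP_5e64e7_nt.AnalyticCurves

/-- The lattice `ℤ + ℤ τ`. -/
noncomputable def lattice (τ : ℂ) (h : 0 < τ.im) : PeriodPair where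
  ω₁ := 1
  ω₂ := τ
  indep := (Y685.LL ⟨τ, h⟩).indep

/-- The modular invariant `j = 1728 g₂³ / (g₂³ - 27 g₃²)` on the upper half-plane. -/
noncomputable def j (τ : ℂ) : ℂ :=
  if h : 0 < τ.im then 1728 * (lattice τ h).g₂ ^ 3 / ((lattice τ h).g₂ ^ 3 - 27 * (lattice τ h).g₃ ^ 2) else 0

/-- The names of the `4 p + 2 s` functions of a curve. -/
abbrev Name (p s : ℕ) : Type := (Fin p × Fin 4) ⊕ (Fin s × Fin 2)

/-- The numbers `z`, `j(z)`, `j'(z)`, `j''(z)` at `z = τ_i(t)`, and `w_k(t)`, `exp(w_k(t))`. -/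
noncomputable def value {p s : ℕ} (τ : Fin p → ℂ → ℂ) (w : Fin s → ℂ → ℂ) (t : ℂ) : Name p s → ℂ :=
  Sum.elim (fun x => ![τ x.1 t, j (τ x.1 t), deriv j (τ x.1 t), deriv (deriv j) (τ x.1 t)] x.2)
    (fun x => ![w x.1 t, Complex.exp (w x.1 t)] x.2)

/-- An analytic curve in `ℍ^p × ℂ^s`. -/
structure Curve (Ω : Set ℂ) {p s : ℕ} (τ : Fin p → ℂ → ℂ) (w : Fin s → ℂ → ℂ) : Prop where
  analytic : ∀ i, AnalyticOnNhd ℂ (τ i) Ω
  im_pos : ∀ i, ∀ z ∈ Ω, 0 < (τ i z).im
  nonconstant : ∀ i c, ∃ z ∈ Ω, τ i z ≠ c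
  /-- two of the functions `j(τ_i)` are algebraically independent over `ℂ` -/
  independent : ∀ i k, i ≠ k → ∀ P : MvPolynomial (Fin 2) ℂ, P ≠ 0 →
    ∃ z ∈ Ω, MvPolynomial.eval ![j (τ i z), j (τ k z)] P ≠ 0
  analytic_w : ∀ k, AnalyticOnNhd ℂ (w k) Ω
  /-- no nontrivial combination with integral coefficients of the `w_k` is constant -/
  linear : ∀ (m : Fin s → ℤ) (c : ℂ), (∀ z ∈ Ω, ∑ k, (m k : ℂ) * w k z = c) → m = 0

/-- The element `x` of `F` is a quotient of integers all of whose conjugates have absolute value at most `T`. -/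
def HeightLe (F : Type) [Field F] [NumberField F] (T : ℝ) (x : F) : Prop :=
  ∃ a b : 𝓞 F, b ≠ 0 ∧ (∀ φ : F →+* ℂ, ‖φ a‖ ≤ T ∧ ‖φ b‖ ≤ T) ∧ x = a / b

/-- the polynomial `Q(c, X)` with complex coefficients, for a polynomial `Q` over the integers of `F` -/
noncomputable def specialise {r : ℕ} {σ : Type} (F : Type) [Field F] [NumberField F] (ι : F →+* ℂ) (c : Fin r → ℂ)
    (Q : MvPolynomial (Fin r ⊕ σ) (𝓞 F)) : MvPolynomial σ ℂ :=
  MvPolynomial.eval₂ (MvPolynomial.C.comp (ι.comp (algebraMap (𝓞 F) F)))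
    (Sum.elim (fun i => MvPolynomial.C (c i)) MvPolynomial.X) Q

/-- The numbers `v` are independent over `c`: let `Q` be a polynomial of degree at most `d` in each variable whose
coefficients are integers of `F` with conjugates of absolute value at most `H`. Then the absolute value of `Q(c, v)` is at
least `η` times that of each coefficient of `Q(c, X)`. (So `Q(c, v) = 0` only if `Q(c, X) = 0`.) -/
def Independent {r : ℕ} {σ : Type} (F : Type) [Field F] [NumberField F] (ι : F →+* ℂ) (c : Fin r → ℂ) (d : ℕ)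
    (H η : ℝ) (v : σ → ℂ) : Prop :=
  ∀ Q : MvPolynomial (Fin r ⊕ σ) (𝓞 F), (∀ y, Q.degreeOf y ≤ d) →
    (∀ u (φ : F →+* ℂ), ‖φ ((Q.coeff u : 𝓞 F) : F)‖ ≤ H) →
      ∀ s, η * ‖(specialise F ι c Q).coeff s‖ ≤ ‖MvPolynomial.aeval v (specialise F ι c Q)‖

theorem j_eq {τ : ℂ} (h : 0 < τ.im) : j τ = Y776.jf τ := by
  have h1 : Y685.LC τ = lattice τ h := by
    rw [Y685.LC, UpperHalfPlane.ofComplex_apply_of_im_pos h]
    rfl
  rw [j, dif_pos h, Y776.jf, h1]

theorem j_ev {τ : ℂ} (h : 0 < τ.im) : j =ᶠ[nhds τ] Y776.jf := by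
  filter_upwards [Y776.AxJ.isOpen_H.mem_nhds h] with σ hσ
  exact j_eq hσ

theorem dj_eq {τ : ℂ} (h : 0 < τ.im) : deriv j τ = deriv Y776.jf τ := (j_ev h).deriv_eq

theorem dj_ev {τ : ℂ} (h : 0 < τ.im) : deriv j =ᶠ[nhds τ] deriv Y776.jf := by
  filter_upwards [Y776.AxJ.isOpen_H.mem_nhds h] with σ hσ
  exact dj_eq hσ

theorem ddj_eq {τ : ℂ} (h : 0 < τ.im) : deriv (deriv j) τ = deriv (deriv Y776.jf) τ := (dj_ev h).deriv_eq

theorem fmj {Ω : Set ℂ} (ho : IsOpen Ω) (hc : IsPreconnected Ω) (hn : Ω.Nonempty) {p s : ℕ} {τ : Fin p → ℂ → ℂ}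
    {w : Fin s → ℂ → ℂ} (h : Curve Ω τ w) : Y776.AxJ.Fmj Ω τ w where
  op := ho
  conn := hc
  ne := hn
  ta := h.analytic
  im := h.im_pos
  nc := h.nonconstant
  ji := by
    intro i k hik P hP
    by_contra hne
    obtain ⟨z, hz, hz0⟩ := h.independent i k hik P hne
    apply hz0
    rw [← hP z hz]
    congr 2
    funext m
    fin_cases m
    · exact j_eq (h.im_pos i z hz)
    · exact j_eq (h.im_pos k z hz)
  wa := h.analytic_w
  wi := h.linear

/-- the name of a function -/
def nm {p s : ℕ} : Y776.AxJ.Nj p s → Name p s :=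
  Sum.elim Sum.inl (Sum.elim (fun k => Sum.inr (k, 0)) (fun k => Sum.inr (k, 1)))

theorem nm_inj {p s : ℕ} : Function.Injective (nm (p := p) (s := s)) := by
  rintro (x | k | k) (y | l | l) h
  · exact congrArg Sum.inl (Sum.inl.inj h)
  · cases h
  · cases h
  · cases h
  · have := (Prod.mk.inj (Sum.inr.inj h)).1
    rw [this]
  · have := (Prod.mk.inj (Sum.inr.inj h)).2
    exact absurd this (by decide)
  · cases h
  · have := (Prod.mk.inj (Sum.inr.inj h)).2
    exact absurd this (by decide)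
  · have := (Prod.mk.inj (Sum.inr.inj h)).1
    rw [this]

theorem value_eq {Ω : Set ℂ} {p s : ℕ} {τ : Fin p → ℂ → ℂ} {w : Fin s → ℂ → ℂ} (h : Curve Ω τ w) {z : ℂ}
    (hz : z ∈ Ω) (o : Y776.AxJ.Nj p s) : value τ w z (nm o) = Y776.AxJ.yj τ w o z := by
  rcases o with ⟨i, m⟩ | k | k
  · fin_cases m
    · rfl
    · exact j_eq (h.im_pos i z hz)
    · exact dj_eq (h.im_pos i z hz)
    · exact ddj_eq (h.im_pos i z hz)
  · rfl
  · rfl

/-- **The modular Schanuel conjecture with derivatives on analytic curves, almost all algebraic parameters.** Let `p ≥ 1`,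
and consider `n` analytic curves in `ℍ^p × ℂ^s` over a domain `Ω`. One can choose for each of them `3 p + s` of its `4 p + 2 s`
functions such that for all `m`, `d`, `r`, `A`, `δ > 0` and all compact subsets `L` of `Ω` there are `B`, `C`, `T₀` such that the
following is true for all number fields `F` of degree at most `m` with an embedding in `ℂ`, all complex numbers
`c_1, …, c_r`, all `T ≥ T₀` and all finite sets `X_1, …, X_n` of elements of `F` of height at most `T` with images in `L`, each of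
diameter at most `T ^ (-δ)`: for all tuples `t` in `∏ X_k` with at most `C ∑_k ∏_(i ≠ k) |X_i|` exceptions, and for at least one
tuple if `|X_k| > C` for all `k`, the `n (3 p + s)` chosen numbers at the `t_k` are independent over `c`, for the degree `d`, the
height `T ^ A` and the measure `T ^ (-B)`. -/
theorem result (n p s : ℕ) (hp : 0 < p) (Ω : Set ℂ) (hΩ : IsOpen Ω) (hc : IsPreconnected Ω) (hne : Ω.Nonempty)
    (τ : Fin n → Fin p → ℂ → ℂ) (w : Fin n → Fin s → ℂ → ℂ) (h : ∀ k, Curve Ω (τ k) (w k)) :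
    ∃ e : Fin n → Fin (3 * p + s) → Name p s, (∀ k, Function.Injective (e k)) ∧
      ∀ (m d r : ℕ) (L : Set ℂ), IsCompact L → L ⊆ Ω → ∀ A δ : ℝ, 0 < δ →
        ∃ (B : ℝ) (C : ℕ) (T₀ : ℝ), ∀ (F : Type) [Field F] [NumberField F], Module.finrank ℚ F ≤ m →
          ∀ (ι : F →+* ℂ) (c : Fin r → ℂ) (T : ℝ), T₀ ≤ T → ∀ X : Fin n → Finset F,
            (∀ k, ∀ x ∈ X k, ι x ∈ L ∧ HeightLe F T x) →
            (∀ k, ∀ x ∈ X k, ∀ y ∈ X k, ‖ι x - ι y‖ ≤ T ^ (-δ)) →
            (({t : Fin n → F | (∀ k, t k ∈ X k) ∧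
              ¬ Independent F ι c d (T ^ A) (T ^ (-B)) (fun q : Fin n × Fin (3 * p + s) =>
                value (τ q.1) (w q.1) (ι (t q.1)) (e q.1 q.2))}.ncard : ℝ) ≤
              C * ∑ k, ∏ i ∈ Finset.univ.erase k, ((X i).card : ℝ)) ∧
            ((∀ k, C < (X k).card) → ∃ t : Fin n → F, (∀ k, t k ∈ X k) ∧
              Independent F ι c d (T ^ A) (T ^ (-B)) (fun q : Fin n × Fin (3 * p + s) =>
                value (τ q.1) (w q.1) (ι (t q.1)) (e q.1 q.2))) := by
  classical
  choose e he hL using fun k => Y776.AxJ.exists_loc (fmj hΩ hc hne (h k)) hp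
  refine ⟨fun k i => nm (e k i), fun k => nm_inj.comp (he k), fun m d r L hLc hLΩ A δ hδ => ?_⟩
  obtain ⟨B, C, T₀, H⟩ := Pool.Agent.R349.Gen.shortG m n (Fintype.card (Fin r → Fin (d + 1))) d
    (fun k i => Y776.AxJ.yj (τ k) (w k) (e k i)) L hLc
    (fun k i t ht => Y776.AxJ.yj_an (fmj hΩ hc hne (h k)) (e k i) t (hLΩ ht))
    (fun k t ht => hL k t (hLΩ ht)) A δ hδ
  refine ⟨B, C, T₀, fun F _ _ hF ι c T hT X hX hXd => ?_⟩
  obtain ⟨h1, h2⟩ := H F hF ι (fun i => ∏ k, c k ^ ((Fintype.equivFin (Fin r → Fin (d + 1))).symm i k : ℕ)) T hT X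
    hX hXd
  have key : ∀ t : Fin n → F, (∀ k, t k ∈ X k) →
      Pool.Agent.R349.Gen.GoodG F ι (fun i : Fin (Fintype.card (Fin r → Fin (d + 1))) =>
        ∏ k, c k ^ ((Fintype.equivFin (Fin r → Fin (d + 1))).symm i k : ℕ)) d (T ^ A) (T ^ (-B))
        (fun z : Fin n × Fin (3 * p + s) => Y776.AxJ.yj (τ z.1) (w z.1) (e z.1 z.2) (ι (t z.1))) →
      Independent F ι c d (T ^ A) (T ^ (-B)) (fun q : Fin n × Fin (3 * p + s) =>
        value (τ q.1) (w q.1) (ι (t q.1)) (nm (e q.1 q.2))) := by
    intro t ht hg Q hQ hQc u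
    have h3 := Pool.Agent.K1H12.MS.indep_of_good F ι c _ hg Q hQ hQc u
    have h4 : (fun q : Fin n × Fin (3 * p + s) => value (τ q.1) (w q.1) (ι (t q.1)) (nm (e q.1 q.2))) =
        fun z : Fin n × Fin (3 * p + s) => Y776.AxJ.yj (τ z.1) (w z.1) (e z.1 z.2) (ι (t z.1)) := by
      funext q
      exact value_eq (h q.1) (hLΩ (hX q.1 _ (ht q.1)).1) _
    rw [h4]
    exact h3
  refine ⟨?_, fun hcard => ?_⟩
  · refine le_trans ?_ h1
    have hfin : {t : Fin n → F | (∀ j, t j ∈ X j) ∧
        ¬ Pool.Agent.R349.Gen.GoodG F ι (fun i : Fin (Fintype.card (Fin r → Fin (d + 1))) =>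
          ∏ k, c k ^ ((Fintype.equivFin (Fin r → Fin (d + 1))).symm i k : ℕ)) d (T ^ A) (T ^ (-B))
          (fun z : Fin n × Fin (3 * p + s) =>
            Y776.AxJ.yj (τ z.1) (w z.1) (e z.1 z.2) (ι (t z.1)))}.Finite := by
      refine (Set.Finite.pi' fun k => (X k).finite_toSet).subset ?_
      intro t ht
      exact fun k => ht.1 k
    have hsub : {t : Fin n → F | (∀ k, t k ∈ X k) ∧
        ¬ Independent F ι c d (T ^ A) (T ^ (-B)) (fun q : Fin n × Fin (3 * p + s) =>
          value (τ q.1) (w q.1) (ι (t q.1)) (nm (e q.1 q.2)))} ⊆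
        {t : Fin n → F | (∀ j, t j ∈ X j) ∧
        ¬ Pool.Agent.R349.Gen.GoodG F ι (fun i : Fin (Fintype.card (Fin r → Fin (d + 1))) =>
          ∏ k, c k ^ ((Fintype.equivFin (Fin r → Fin (d + 1))).symm i k : ℕ)) d (T ^ A) (T ^ (-B))
          (fun z : Fin n × Fin (3 * p + s) =>
            Y776.AxJ.yj (τ z.1) (w z.1) (e z.1 z.2) (ι (t z.1)))} :=
      fun t ht => ⟨ht.1, fun hg => ht.2 (key t ht.1 hg)⟩
    have h5 := Set.ncard_le_ncard hsub hfin
    exact_mod_cast h5
  · obtain ⟨t, ht1, ht2⟩ := h2 hcard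
    exact ⟨t, ht1, key t ht1 ht2⟩

end Pool.Agent.Results.MP_5e64e7_nt.AnalyticCurves
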